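import Pool.Agent.H528Z.GbcEx1
import Pool.Agent.H528Z.GbcFlat

/-!
Rigidity fails for the Gauss-Bonnet-Chern mass: a complete asymptotically flat metric on `ℝ^6` with
`L₂ > 0`, `R ≥ 0` and `m₂ = 0`, not isometric to Euclidean space. The metric is
`δ + 6 (1 + |x|²)⁻² x ⊗ x + 10 (1 + |x|²)⁻² Jx ⊗ Jx` with `J` the complex structure of `ℂ³`.
-/

set_option autoImplicit false

open H528GBC

theorem Pool.Agent.Results.MP_f5d73e_gt.NonRigid.result :
    ∃ (g : E 6 → Matrix (Fin 6) (Fin 6) ℝ) (τ : ℝ),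
      ((6 : ℝ) - 4) / 3 < τ ∧ IsMetricOn Set.univ g ∧ CompleteOn Set.univ g ∧ AsympFlat g τ ∧
      L2Integrable Set.univ g ∧ (∀ x, 0 ≤ (jet g x).L2) ∧ (∀ x, 0 ≤ (jet g x).scal) ∧
      HasMass g 0 ∧ ¬ IsometricToEuclidean g := by
  have h1 : ∀ x : E 6, 1 ≤ ex1.κ + ss x := fun x => by
    have := Fam.ss_nonneg x
    simp only [ex1]; linarith
  have hs : ∀ x : E 6, 1 ≤ √(ex1.κ + ss x) := fun x => Real.one_le_sqrt.2 (h1 x)
  have hL : ∀ x, 0 < (jet ex1.gm x).L2 := fun x => by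
    rw [(ex1_eval x (h1 x)).1]; exact ex1L_pos _ (hs x)
  refine ⟨ex1.gm, 2, by norm_num, ?_, ex1_ok.completeOn isClosed_univ,
    ex1_ok.asympFlat (by norm_num [ex1]) (by norm_num [ex1]) (by norm_num [ex1]),
    ex1_ok.l2Integrable (by norm_num [ex1]) (by norm_num [ex1]) MeasurableSet.univ
      (fun x _ => h1 x) ex1L_meas ex1L_bd (fun x _ => (ex1_eval x (h1 x)).1),
    fun x => (hL x).le, fun x => ?_, ?_, fun h => ?_⟩
  · have : {x : E 6 | 0 < ex1.κ + ss x} = Set.univ :=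
      Set.eq_univ_of_forall fun x => lt_of_lt_of_le one_pos (h1 x)
    rw [← this]; exact ex1_ok.isMetricOn
  · rw [(ex1_eval x (h1 x)).2]; exact ex1S_pos _ (hs x)
  · have := ex1_mass
    rwa [ex1F_zero, zero_div] at this
  · exact (hL 0).ne' (L2_zero_of_isometric h 0 (ex1_ok.posDef 0))
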